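import Pool.Agent.Work.MP_8aaf67_al.AF.All

/-!
# Sylow subgroups of verbal subgroups: groups with alternating composition factors

`[u, v] = u v u⁻¹ v⁻¹`. The composition factors of a finite group are the simple homomorphic images
of its subnormal subgroups.
-/

set_option autoImplicit false

namespace Pool.Agent.Results.MP_8aaf67_al.AlternatingFactors

open Subgroup

/-- `w` is a multilinear commutator word with the set of variables `A`. -/
inductive IsML : FreeGroup ℕ → Finset ℕ → Prop
  | var (i : ℕ) : IsML (FreeGroup.of i) {i}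
  | comm (u v : FreeGroup ℕ) (B C : Finset ℕ) : IsML u B → IsML v C → Disjoint B C →
      IsML (u * v * u⁻¹ * v⁻¹) (B ∪ C)

theorem IsML.toAF {w : FreeGroup ℕ} {A : Finset ℕ} (h : IsML w A) :
    Pool.Agent.Work.MP_8aaf67_al.AF.IsML w A := by
  induction h with
  | var i => exact .var i
  | comm u v B C _ _ hBC hu hv => exact .comm u v B C hu hv hBC

/-- If every nonabelian composition factor of `G` of order divisible by `p` is an alternating group
of degree `n ≥ 5`, `(p, n) ≠ (5, 5)`, then for every multilinear commutator word `w` the Sylow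
`p`-subgroups of `w(G)` are generated by `w`-values. -/
theorem result (w : FreeGroup ℕ) (A : Finset ℕ) (hw : IsML w A) (p : ℕ) (hp : p.Prime)
    (G : Type) [Group G] [Finite G]
    (hG : ∀ (K : Subgroup G) (X : Type) [Group X] (f : K →* X), K.IsSubnormal →
      Function.Surjective f → IsSimpleGroup X → (∃ a b : X, a * b ≠ b * a) →
      p ∣ Nat.card X →
      ∃ n : ℕ, 5 ≤ n ∧ ¬ (p = 5 ∧ n = 5) ∧ Nonempty (X ≃* alternatingGroup (Fin n))) :
    ∀ H : Subgroup G,
      H = Subgroup.closure
            {x : G | ∃ g : ℕ → G, (FreeGroup.lift g : FreeGroup ℕ →* G) w = x} →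
      ∀ P : Sylow p H,
        Subgroup.map H.subtype (P : Subgroup H) =
          Subgroup.closure
            {x : G | x ∈ Subgroup.map H.subtype (P : Subgroup H) ∧
              ∃ g : ℕ → G, (FreeGroup.lift g : FreeGroup ℕ →* G) w = x} :=
  Pool.Agent.Work.MP_8aaf67_al.AF.final Pool.Agent.Work.MP_8aaf67_al.AF.g_end w A hw.toAF p hp G hG

end Pool.Agent.Results.MP_8aaf67_al.AlternatingFactors
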