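import Pool.Agent.Work.MP_8aaf67_al.LF.All

/-!
# Sylow subgroups of verbal subgroups: groups with linear composition factors

`[u, v] = u v u⁻¹ v⁻¹`. The composition factors of a finite group are the simple homomorphic images
of its subnormal subgroups. `PSL(n, F)` is Mathlib's `Matrix.ProjectiveSpecialLinearGroup (Fin n) F`.
-/

set_option autoImplicit false

namespace Pool.Agent.Results.MP_8aaf67_al.LinearFactors

open Subgroup
open scoped MatrixGroups

/-- `w` is a multilinear commutator word with the set of variables `A`. -/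
inductive IsML : FreeGroup ℕ → Finset ℕ → Prop
  | var (i : ℕ) : IsML (FreeGroup.of i) {i}
  | comm (u v : FreeGroup ℕ) (B C : Finset ℕ) : IsML u B → IsML v C → Disjoint B C →
      IsML (u * v * u⁻¹ * v⁻¹) (B ∪ C)

theorem IsML.toAF {w : FreeGroup ℕ} {A : Finset ℕ} (h : IsML w A) :
    Pool.Agent.Work.MP_8aaf67_al.AF.IsML w A := by
  induction h with
  | var i => exact .var i
  | comm u v B C _ _ hBC hu hv => exact .comm u v B C hu hv hBC

/-- If every nonabelian composition factor of `G` of order divisible by `p` is isomorphic to some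
`PSL(n, F)` with `F` a finite field and
* `F` of characteristic `p` and `n ≥ 5`, or `n ≥ 3` and `|F| ≥ 4`, or
* `F` of characteristic different from `p`, `p = 2`, `n ≥ 10`, or
* `F` of characteristic different from `p`, `p` odd, `n ≥ 5 e`, and `n ≥ 6 e` if `p = 5`, where
  `e` is the order of `|F|` modulo `p`,
then for every multilinear commutator word `w` the Sylow `p`-subgroups of `w(G)` are generated by
`w`-values. -/
theorem result (w : FreeGroup ℕ) (A : Finset ℕ) (hw : IsML w A) (p : ℕ) (hp : p.Prime)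
    (G : Type) [Group G] [Finite G]
    (hG : ∀ (K : Subgroup G) (X : Type) [Group X] (f : K →* X), K.IsSubnormal →
      Function.Surjective f → IsSimpleGroup X → (∃ a b : X, a * b ≠ b * a) →
      p ∣ Nat.card X →
      ∃ (n : ℕ) (F : Type) (_ : Field F) (_ : Finite F), Nonempty (X ≃* PSL(n, F)) ∧
        (((p : F) = 0 ∧ (5 ≤ n ∨ (3 ≤ n ∧ 4 ≤ Nat.card F))) ∨
        ((p : F) ≠ 0 ∧ p = 2 ∧ 10 ≤ n) ∨
        ((p : F) ≠ 0 ∧ p ≠ 2 ∧ 5 * orderOf (Nat.card F : ZMod p) ≤ n ∧
          (p = 5 → 6 * orderOf (Nat.card F : ZMod p) ≤ n)))) :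
    ∀ H : Subgroup G,
      H = Subgroup.closure
            {x : G | ∃ g : ℕ → G, (FreeGroup.lift g : FreeGroup ℕ →* G) w = x} →
      ∀ P : Sylow p H,
        Subgroup.map H.subtype (P : Subgroup H) =
          Subgroup.closure
            {x : G | x ∈ Subgroup.map H.subtype (P : Subgroup H) ∧
              ∃ g : ℕ → G, (FreeGroup.lift g : FreeGroup ℕ →* G) w = x} :=
  Pool.Agent.Work.MP_8aaf67_al.LF.final Pool.Agent.Work.MP_8aaf67_al.LF.lf_end w A hw.toAF p hp G
    (fun K X _ f hK hf hX hc hd => by
      obtain ⟨n, F, i1, i2, he, hr⟩ := hG K X f hK hf hX hc hd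
      exact ⟨n, F, i1, i2, hr, he⟩)

end Pool.Agent.Results.MP_8aaf67_al.LinearFactors
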