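import Pool.Agent.Work.MP_8aaf67_al.PS.GV
import Pool.Agent.Work.MP_8aaf67_al.PS.LNC
import Pool.Agent.Work.MP_8aaf67_al.PS.LC
import Pool.Agent.Work.MP_8aaf67_al.PS.FixC
import Pool.Agent.Work.MP_8aaf67_al.PS.GTL
import Pool.Agent.Work.MP_8aaf67_al.PS.Fus
import Pool.Agent.Work.MP_8aaf67_al.PS.ABS
import Pool.Agent.Work.MP_8aaf67_al.PS.MinSub
import Pool.Agent.Work.MP_8aaf67_al.PS.STR
import Pool.Agent.Work.MP_8aaf67_al.PS.TriSol
import Pool.Agent.Work.MP_8aaf67_al.PS.TrIII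
import Pool.Agent.Work.MP_8aaf67_al.PS.NormAb
import Pool.Agent.Work.MP_8aaf67_al.PS.TrC
import Pool.Agent.Work.MP_8aaf67_al.PS.PairEx
import Pool.Agent.Work.MP_8aaf67_al.PS.Cnj
import Pool.Agent.Work.MP_8aaf67_al.PS.SolTri
import Pool.Agent.Work.MP_8aaf67_al.PS.CritA
import Pool.Agent.Work.MP_8aaf67_al.PS.CritB
import Pool.Agent.Work.MP_8aaf67_al.PS.SelOdd
import Pool.Agent.Work.MP_8aaf67_al.PS.GTodd
import Pool.Agent.Work.MP_8aaf67_al.PS.GTeven
import Pool.Agent.Work.MP_8aaf67_al.PS.GTsm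
import Pool.Agent.Work.MP_8aaf67_al.PS.Cfg
import Pool.Agent.Work.MP_8aaf67_al.PS.InvConj
import Pool.Agent.Work.MP_8aaf67_al.PS.SylInv
import Pool.Agent.Work.MP_8aaf67_al.PS.InvVal
import Pool.Agent.Work.MP_8aaf67_al.PS.FinS
import Pool.Agent.Work.MP_8aaf67_al.PT.VarS
import Pool.Agent.Work.MP_8aaf67_al.PT.GTLp
import Pool.Agent.Work.MP_8aaf67_al.PT.LiftN
import Pool.Agent.Work.MP_8aaf67_al.PT.VerbD
import Pool.Agent.Work.MP_8aaf67_al.PT.LiftB
import Pool.Agent.Work.MP_8aaf67_al.PT.ActV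
import Pool.Agent.Work.MP_8aaf67_al.PT.ActG
import Pool.Agent.Work.MP_8aaf67_al.PT.ActE
import Pool.Agent.Work.MP_8aaf67_al.PT.GTPodd
import Pool.Agent.Work.MP_8aaf67_al.PT.GTPeven
import Pool.Agent.Work.MP_8aaf67_al.PT.GTU
import Pool.Agent.Work.MP_8aaf67_al.PT.TorS
import Pool.Agent.Work.MP_8aaf67_al.PT.NorT
import Pool.Agent.Work.MP_8aaf67_al.PT.InvT
import Pool.Agent.Work.MP_8aaf67_al.PT.CycT
import Pool.Agent.Work.MP_8aaf67_al.PT.TrT
import Pool.Agent.Work.MP_8aaf67_al.PT.ModB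
import Pool.Agent.Work.MP_8aaf67_al.PT.CfgE
import Pool.Agent.Work.MP_8aaf67_al.PT.CfgU
import Pool.Agent.Work.MP_8aaf67_al.PT.ConjU
import Pool.Agent.Work.MP_8aaf67_al.PT.SecNS
import Pool.Agent.Work.MP_8aaf67_al.PT.Ord23
import Pool.Agent.Work.MP_8aaf67_al.PT.NSO
import Pool.Agent.Work.MP_8aaf67_al.PT.CenInv
import Pool.Agent.Work.MP_8aaf67_al.PT.CenE
import Pool.Agent.Work.MP_8aaf67_al.PT.NCe
import Pool.Agent.Work.MP_8aaf67_al.PT.NCo
import Pool.Agent.Work.MP_8aaf67_al.PT.NC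
import Pool.Agent.Work.MP_8aaf67_al.PT.LemR
import Pool.Agent.Work.MP_8aaf67_al.PT.LemU
import Pool.Agent.Work.MP_8aaf67_al.PT.Core1
import Pool.Agent.Work.MP_8aaf67_al.PT.Core2
import Pool.Agent.Work.MP_8aaf67_al.PT.Core3
import Pool.Agent.Work.MP_8aaf67_al.PT.Core4
import Pool.Agent.Work.MP_8aaf67_al.PT.Core5
import Pool.Agent.Work.MP_8aaf67_al.PT.CoreP
import Pool.Agent.Work.MP_8aaf67_al.PT.FinP

/-!
# Sylow subgroups of verbal subgroups: groups with nonabelian simple sections of type PSL(2,F)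

For a multilinear commutator word `w` (predicate `IsMCW`), a finite group `G` and a prime `p`,
`SylowGen p w G` says that every Sylow `p`-subgroup `P` of the verbal subgroup `w(G)` is generated
by the values of `w` lying in `P`. `IsSectionOf X G`: `X` is a homomorphic image of a subgroup of
`G`. `Matrix.ProjectiveSpecialLinearGroup (Fin 2) F` is `PSL(2,F)`.
-/

set_option autoImplicit false

namespace Pool.Agent.Results.MP_8aaf67_al.PSLSections

open Subgroup MP_8aaf67 MP_8aaf67.PS MP_8aaf67.PT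

/-- Let `p` be a prime and let every nonabelian simple section `X` of the finite group `G` be
isomorphic to `PSL(2,F)` for a finite field `F` with `q ≥ 4` elements where, if `p ≠ 2` divides the
order of `X`: `q + 1` is not a power of `p` if `q` is even, `q ≥ 7` if `q` is a power of `p`, and
`q ≥ 9` if `q` is odd and prime to `p` (for `p = 2` one may also allow all simple `X` whose Sylow
2-subgroups are generated by involutions lying in subgroups `PSL(2,F)` of `X`). Then for every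
multilinear commutator word `w` the Sylow `p`-subgroups of `w(G)` are generated by `w`-values. -/
theorem result :
    ∀ (p : ℕ), p.Prime → ∀ (G : Type) [Group G] [Finite G],
      (∀ (X : Type) [Group X] [Finite X], IsSectionOf X G → IsSimpleGroup X →
        (∃ a b : X, a * b ≠ b * a) →
        (∃ (F : Type) (_ : Field F) (_ : Finite F), 4 ≤ Nat.card F ∧
          Nonempty (X ≃* Matrix.ProjectiveSpecialLinearGroup (Fin 2) F) ∧
          (p ≠ 2 → p ∣ Nat.card X →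
            (2 ∣ Nat.card F → ¬ ∃ e : ℕ, Nat.card F + 1 = p ^ e) ∧
            (¬ 2 ∣ Nat.card F → (p ∣ Nat.card F → 7 ≤ Nat.card F) ∧
              (¬ p ∣ Nat.card F → 9 ≤ Nat.card F)))) ∨
        (p = 2 ∧
          (∃ t : X, ∃ (F : Type) (_ : Field F) (_ : Finite F) (H : Subgroup X), 4 ≤ Nat.card F ∧
            t ∈ H ∧ Nonempty (H ≃* Matrix.ProjectiveSpecialLinearGroup (Fin 2) F)) ∧
          ∀ P : Sylow 2 X, (P : Subgroup X) = closure {t : X | t ∈ P ∧ t * t = 1 ∧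
            ∃ (F : Type) (_ : Field F) (_ : Finite F) (H : Subgroup X), 4 ≤ Nat.card F ∧
              t ∈ H ∧ Nonempty (H ≃* Matrix.ProjectiveSpecialLinearGroup (Fin 2) F)})) →
      ∀ (s : Finset ℕ) (w : FreeGroup ℕ), IsMCW s w → SylowGen p w G := by
  intro p hp G _ _ hG s w hw
  obtain ⟨t, ht⟩ := hw.hasTree
  have hGTL := prf_GTL prf_LNC prf_LC prf_FixC
  have hSol := prf_SolTri prf_STR
  have hCA := prf_CritA hSol prf_TrIII
  have hCB := prf_CritB hSol prf_TrIII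
  have hGTodd := prf_GTodd prf_PairEx prf_TrC prf_Cnj hCA prf_SelOdd
  have hGTeven := prf_GTeven prf_PairEx prf_TrC prf_Cnj hCA
  have hNA := prf_NormAb prf_STR prf_TriSol
  rcases eq_or_ne p 2 with h2 | h2
  · subst h2
    have hABS := prf_ABS prf_GV hGTL prf_Fus
    have hIV := prf_InvVal hNA prf_MinSub hABS hGTodd hGTeven
      (prf_GTsm prf_PairEx prf_TrC prf_Cnj hCB) prf_Cfg prf_InvConj prf_Fus
    have hfact : Fact (Nat.Prime 2) := ⟨Nat.prime_two⟩
    refine (sylowGen_iff (ht.wordValues_eq G)).2 (prf_FinS hIV prf_SylInv G ?_ t)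
    intro X _ _ hX hsim hna
    rcases hG X hX hsim hna with ⟨F, i1, i2, h4, hF, -⟩ | ⟨-, h⟩
    · exact Or.inl ⟨F, i1, i2, h4, hF⟩
    · exact Or.inr h
  · have hfact : Fact p.Prime := ⟨hp⟩
    have hGTLp := prf_GTLp hGTL
    have hLiftN := prf_LiftN prf_VarS prf_LNC prf_LC
    have hActG := prf_ActG hGTLp prf_LiftB prf_ActV prf_GV
    have hActE := prf_ActE hLiftN prf_ActV prf_GV
    have hNSO := prf_NSO prf_SecNS prf_Ord23
    have hNC := prf_NC (prf_NCe hNSO prf_CenE hNA) (prf_NCo hNSO prf_CenInv) hNSO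
    have hC1 := prf_Core1 (prf_LemR hNC (prf_NorT prf_TorS)) prf_VerbD
    have hC2 := prf_Core2 hActG (prf_GTPodd prf_PairEx prf_TrC prf_Cnj hCA) hGTodd
      (prf_InvT prf_TorS prf_Cnj) (prf_CycT prf_TorS) (prf_TrT prf_Cnj) hNSO
    have hC3 := prf_Core3 hActE (prf_GTPeven prf_PairEx prf_TrC prf_Cnj hCA) hGTeven
      (prf_CfgE prf_TorS prf_ModB) (prf_CycT prf_TorS) (prf_TrT prf_Cnj) hNSO
    have hC4 := prf_Core4 (prf_LemU hNC) prf_VerbD prf_ConjU prf_LiftB
    have hC5 := prf_Core5 hActG (prf_GTU prf_PairEx prf_TrC prf_Cnj hCB) hGTodd prf_CfgU hNSO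
    refine (sylowGen_iff (ht.wordValues_eq G)).2
      (prf_FinP (prf_CoreP hC1 hC2 hC3 hC4 hC5) p h2 G ?_ t)
    intro X _ _ hX hsim hna
    rcases hG X hX hsim hna with ⟨F, i1, i2, h4, ⟨e⟩, hc⟩ | ⟨h, -⟩
    · refine ⟨F, i1, i2, h4, ⟨e⟩, fun hd => ?_⟩
      exact hc h2 ((Nat.card_congr e.toEquiv) ▸ hd)
    · exact absurd h h2

end Pool.Agent.Results.MP_8aaf67_al.PSLSections
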