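import Pool.Agent.Work.MP_8aaf67_al.Bridge

/-!
# Reduction of the problem to perfect Frattini covers of simple groups, and p-soluble groups

For a multilinear commutator word `w` (predicate `IsMCW`), a finite group `G` and a prime `p`,
`SylowGen p w G` says that every Sylow `p`-subgroup `P` of the verbal subgroup `w(G)` is generated
by the values of `w` lying in `P`.

1. If `SylowGen p d S` holds for all derived words `d` and all sections `S` of `G` that are perfect,
   of order divisible by `p`, with Frattini subgroup of order prime to `p` and with
   `S / Frattini(S)` simple, then `SylowGen p w G` holds for all multilinear commutator words `w`.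
2. In particular `SylowGen p w G` holds for all multilinear commutator words `w` and all finite
   `p`-soluble groups `G` (for instance all finite soluble groups).
-/

set_option autoImplicit false

namespace Pool.Agent.Results.MP_8aaf67_al.ReductionToCovers

open Subgroup MP_8aaf67

universe u

theorem result :
    (∀ p : ℕ, p.Prime → ∀ (G : Type u) [Group G] [Finite G],
      (∀ (S : Type u) [Group S] [Finite S], IsSectionOf S G → commutator S = ⊤ →
        p ∣ Nat.card S → ¬ p ∣ Nat.card (frattini S) → IsSimpleGroup (S ⧸ frattini S) →
        ∀ k : ℕ, SylowGen p (derivedWord k) S) →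
      ∀ (s : Finset ℕ) (w : FreeGroup ℕ), IsMCW s w → SylowGen p w G) ∧
    (∀ (s : Finset ℕ) (w : FreeGroup ℕ), IsMCW s w → ∀ p : ℕ, p.Prime →
      ∀ (G : Type u) [Group G] [Finite G], PSoluble p G → SylowGen p w G) := by
  refine ⟨?_, ?_⟩
  · intro p hp G _ _ h s w hw
    have : Fact p.Prime := ⟨hp⟩
    obtain ⟨t, ht⟩ := hw.hasTree
    exact (sylowGen_iff (ht.wordValues_eq G)).2 (section_reduction p G h t)
  · intro s w hw p hp G _ _ hG
    have : Fact p.Prime := ⟨hp⟩
    obtain ⟨t, ht⟩ := hw.hasTree
    exact (sylowGen_iff (ht.wordValues_eq G)).2 (psoluble_all p G hG t)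

end Pool.Agent.Results.MP_8aaf67_al.ReductionToCovers
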